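import Pool.Agent.X41.Alt3.Main

set_option autoImplicit false

/-!
# A solvable variety of alternative and Jordan algebras of characteristic three without finite basis

Over every field `K` of characteristic three there is a variety of `K`-algebras, all of whose
members are alternative, commutative and Jordan, and solvable of index 3, which is not defined by
any finite set of identities.  This answers Q1 and Q2 negatively.
-/

namespace Pool.Agent.Results.MP_a43909_al.CharThree

open Pool.Agent.X41.Inf3 Pool.Agent.X41.Alt3

universe u

/-- **Negative answer to Q1 and to Q2**, over every field of characteristic three. -/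
theorem result :
    (∃ (K : Type) (_ : Field K), CharP K 3) ∧
    ∀ (K : Type u) [Field K] [CharP K 3],
      ∃ S : Set (FreeNonUnitalNonAssocAlgebra K ℕ),
        (∀ (B : Type u) [NonUnitalNonAssocRing B] [Module K B] [IsScalarTower K B B]
          [SMulCommClass K B B], Models K S B →
            IsAlternative B ∧ IsJordanAlg B ∧ der K B 3 = ⊥) ∧
        ¬ ∃ S' : Set (FreeNonUnitalNonAssocAlgebra K ℕ), S'.Finite ∧
          ∀ (B : Type u) [NonUnitalNonAssocRing B] [Module K B] [IsScalarTower K B B]
            [SMulCommClass K B B], Models K S' B ↔ Models K S B :=
  ⟨⟨ZMod 3, inferInstance, inferInstance⟩, fun K _ _ => main K⟩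

end Pool.Agent.Results.MP_a43909_al.CharThree
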