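import Pool.Agent.X41.Inf3.Jordan

set_option autoImplicit false

/-!
# A variety of solvable Jordan algebras without a finite basis (characteristic two)

Over every infinite field `K` of characteristic two the variety generated by the three-dimensional
commutative algebra `d e = e d = e`, `e e = z` consists of Jordan algebras (also in the sense of the
fully linearised Jordan identity) which are solvable of index 3, and it is not finitely based.
-/

namespace Pool.Agent.Results.MP_a43909_al.JordanCharTwo

open Pool.Agent.X41.Inf3

universe u

/-- **Negative answer to Q2** (for infinite fields of characteristic two). -/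
theorem result :
    (∃ (K : Type) (_ : Field K), Infinite K ∧ CharP K 2) ∧
    ∀ (K : Type u) [Field K] [Infinite K] [CharP K 2],
      ∃ S : Set (FreeNonUnitalNonAssocAlgebra K ℕ),
        (∀ (B : Type u) [NonUnitalNonAssocRing B] [Module K B] [IsScalarTower K B B]
          [SMulCommClass K B B], Models K S B → IsJordanAlg B ∧ LinJordan B ∧ der K B 3 = ⊥) ∧
        ¬ ∃ S' : Set (FreeNonUnitalNonAssocAlgebra K ℕ), S'.Finite ∧
          ∀ (B : Type u) [NonUnitalNonAssocRing B] [Module K B] [IsScalarTower K B B]
            [SMulCommClass K B B], Models K S' B ↔ Models K S B := by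
  refine ⟨⟨AlgebraicClosure (ZMod 2), inferInstance, inferInstance, inferInstance⟩, ?_⟩
  intro K _ _ _
  refine ⟨{f | IsIdentity K (A3 K) f}, ?_, variety_not_finitelyBased⟩
  intro B _ _ _ _ hB
  exact ⟨models_jordan hB, models_lin hB, models_solvable hB⟩

end Pool.Agent.Results.MP_a43909_al.JordanCharTwo
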